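import Mathlib

/-!
# Squad HAR (MP_09e7c7_co, mates for Harary polynomials): definitions

Theorem: there is a non-trivial graph property `P` such that almost all graphs are
`χ_P`-unique (their Harary polynomial determines them up to isomorphism).
-/

namespace Pool.Agent.HAR

open Finset Filter Topology

noncomputable section

/-! ### The problem -/

/-- a graph property: a class of finite graphs closed under isomorphism -/
structure GProp where
  mem : ∀ (V : Type) [Finite V], SimpleGraph V → Prop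
  iso : ∀ (V W : Type) [Finite V] [Finite W] (G : SimpleGraph V) (H : SimpleGraph W),
    Nonempty (G ≃g H) → (mem V G ↔ mem W H)

/-- neither empty nor the class of all graphs -/
def GProp.Nontrivial (P : GProp) : Prop :=
  (∃ (V : Type) (_ : Finite V) (G : SimpleGraph V), P.mem V G) ∧
    ∃ (V : Type) (_ : Finite V) (G : SimpleGraph V), ¬ P.mem V G

/-- the number of partitions of the vertex set into exactly `i` blocks such that all blocks induce
graphs in `P` -/
def hP (P : GProp) {V : Type} [Fintype V] [DecidableEq V] (G : SimpleGraph V) (i : ℕ) : ℕ :=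
  Nat.card {π : Finpartition (Finset.univ : Finset V) // π.parts.card = i ∧
    ∀ B ∈ π.parts, P.mem _ (G.induce (B : Set V))}

/-- the Harary polynomial `∑ h_i k (k - 1) ⋯ (k - i + 1)` -/
def hpol (P : GProp) {V : Type} [Fintype V] [DecidableEq V] (G : SimpleGraph V) :
    Polynomial ℤ :=
  ∑ i ∈ range (Fintype.card V + 1), Polynomial.C (hP P G i : ℤ) * descPochhammer ℤ i

/-- `G` is determined by its Harary polynomial -/
def Unq (P : GProp) {n : ℕ} (G : SimpleGraph (Fin n)) : Prop :=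
  ∀ (m : ℕ) (H : SimpleGraph (Fin m)), hpol P G = hpol P H → Nonempty (G ≃g H)

/-- MAIN THEOREM -/
def MainStmt : Prop := ∃ P : GProp, P.Nontrivial ∧
  (∃ c : ℝ, 0 < c ∧ ∀ᶠ n : ℕ in atTop,
    (Nat.card {G : SimpleGraph (Fin n) // ¬ Unq P G} : ℝ) ≤
      Real.exp (-(c * n)) * Nat.card (SimpleGraph (Fin n))) ∧
  Tendsto (fun n : ℕ => (Nat.card {G : SimpleGraph (Fin n) // Unq P G} : ℝ) /
    Nat.card (SimpleGraph (Fin n))) atTop (𝓝 1)

/-! ### Counting -/

/-- the proportion of the elements of the finite type `Ω` with the property `E` -/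
def pr {Ω : Type} (E : Ω → Prop) : ℝ := (Nat.card {ω // E ω} : ℝ) / Nat.card Ω

/-- distance to the nearest integer -/
def nd (z : ℝ) : ℝ := |z - round z|

/-- the number of partitions of `U` into `j` blocks such that every block `B` is a singleton or
`x (c B)` is true -/
def hh {V ι : Type} [DecidableEq V] (c : Finset V → ι) (x : ι → Bool) (U : Finset V) (j : ℕ) : ℕ :=
  Nat.card {π : Finpartition U // π.parts.card = j ∧ ∀ B ∈ π.parts, B.card = 1 ∨ x (c B) = true}

/-! ### Isomorphism classes -/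

/-- isomorphism of graphs with vertex set `Fin m` -/
def isoS (m : ℕ) : Setoid (SimpleGraph (Fin m)) where
  r G H := Nonempty (G ≃g H)
  iseqv := ⟨fun _ => ⟨SimpleGraph.Iso.refl⟩, fun ⟨e⟩ => ⟨e.symm⟩, fun ⟨e⟩ ⟨f⟩ => ⟨e.trans f⟩⟩

/-- isomorphism classes of finite graphs -/
def Cl : Type := Σ m : ℕ, Quotient (isoS m)

/-- the isomorphism class of a finite graph -/
def cl {V : Type} [Finite V] (G : SimpleGraph V) : Cl :=
  ⟨Nat.card V, Quotient.mk (isoS _) (G.map (Finite.equivFin V).toEmbedding)⟩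

/-- the isomorphism class of the induced subgraph -/
def cls {V : Type} (G : SimpleGraph V) (B : Finset V) : Cl := cl (G.induce (B : Set V))

/-- isomorphism classes of graphs of order at most `n` -/
def Cn (n : ℕ) : Type := {q : Cl // q.1 ≤ n}

instance (m : ℕ) : Finite (SimpleGraph (Fin m)) := by
  classical
  exact inferInstance

instance (n : ℕ) : Finite (Cn n) := by
  have : ∀ m : ℕ, Finite (Quotient (isoS m)) := fun m => Quotient.finite _
  let f : Cn n → Σ m : Fin (n + 1), Quotient (isoS m.1) := fun q =>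
    ⟨⟨q.1.1, Nat.lt_succ_of_le q.2⟩, q.1.2⟩
  refine Finite.of_injective f ?_
  rintro ⟨⟨m, q⟩, hm⟩ ⟨⟨m', q'⟩, hm'⟩ h
  simp only [f, Sigma.mk.injEq, Fin.mk.injEq] at h
  obtain ⟨h1, h2⟩ := h
  subst h1
  simp only [heq_eq_eq] at h2
  subst h2
  rfl

instance (n : ℕ) : Fintype (Cn n) := Fintype.ofFinite _

/-- the class of an induced subgraph, as an element of `Cn n` -/
def cn {n : ℕ} (G : SimpleGraph (Fin n)) (B : Finset (Fin n)) : Cn n :=
  ⟨cls G B, by
    show Nat.card ((B : Set (Fin n)) : Type) ≤ n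
    have h := Finset.card_le_univ B
    rw [Fintype.card_fin] at h
    simpa using h⟩

/-! ### Embeddings, unique subsets, typical graphs -/

/-- `f` is an embedding of `G[I]` into `H` -/
def IsE {n : ℕ} (G H : SimpleGraph (Fin n)) (I : Finset (Fin n)) (f : Fin n → Fin n) : Prop :=
  Set.InjOn f I ∧ ∀ x ∈ I, ∀ y ∈ I, (H.Adj (f x) (f y) ↔ G.Adj x y)

/-- the inclusion is the only embedding of `G[I]` into `G` -/
def Uq {n : ℕ} (G : SimpleGraph (Fin n)) (I : Finset (Fin n)) : Prop :=
  ∀ f, IsE G G I f → ∀ x ∈ I, f x = x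

/-- `G[I]` embeds into `H` -/
def Em {n : ℕ} (G H : SimpleGraph (Fin n)) (I : Finset (Fin n)) : Prop := ∃ f, IsE G H I f

/-- there is exactly one embedding of `G[I]` into `H` -/
def One {n : ℕ} (G H : SimpleGraph (Fin n)) (I : Finset (Fin n)) : Prop :=
  Em G H I ∧ ∀ f g, IsE G H I f → IsE G H I g → ∀ x ∈ I, f x = g x

/-- `n / 12`, rounded up -/
def kk (n : ℕ) : ℕ := (n + 11) / 12

/-- about `5 n / 6` -/
def uu (n : ℕ) : ℕ := n - 2 * kk n

/-- `n / 100`, rounded up -/
def tt (n : ℕ) : ℕ := (n + 99) / 100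

open Classical in
/-- typical graphs: for every `i ≥ n / 100` at most `ε C(n, i)` of the `i`-sets are not unique -/
def Ty (n : ℕ) (ε : ℝ) (G : SimpleGraph (Fin n)) : Prop :=
  ∀ i, tt n ≤ i → i ≤ n →
    (((powersetCard i (univ : Finset (Fin n))).filter fun I => ¬ Uq G I).card : ℝ) ≤
      ε * n.choose i

/-! ### Data of the small ball bound -/

/-- The tuples `τ l` (`l < L`) of `K` sets of size `u`, and for each of the sets and each
`t ∈ [t0, u)` a family of private unique `t`-subsets. -/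
structure Dat {V ι : Type} [Fintype V] [DecidableEq V] (c c' : Finset V → ι) (v0 : V)
    (u t0 K L : ℕ) (η : ℝ) (M : ℕ → ℝ) (Q : ℕ → ℕ) (τ : Fin L → Fin K → Finset V)
    (T : Fin L → Fin K → ℕ → Finset (Finset V)) : Prop where
  t0_ge : 2 ≤ t0
  u_le : u + 2 ≤ Fintype.card V
  card : ∀ l i, (τ l i).card = u
  nmem : ∀ l i, v0 ∉ τ l i
  inj : ∀ l i l' i', τ l i = τ l' i' → l = l' ∧ i = i'
  uq : ∀ l i B, c B = c (univ \ τ l i) → B = univ \ τ l i
  fr : ∀ l i B, c' B ≠ c (univ \ τ l i)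
  sub : ∀ l i t, t0 ≤ t → t < u → ∀ S ∈ T l i t, S ⊆ τ l i ∧ S.card = t ∧
    (∀ B, c B = c S → B = S) ∧ ∀ i', S ⊆ τ l i' → i' = i
  big : ∀ l i t, t0 ≤ t → t < u → M t ≤ (T l i t).card
  M16 : ∀ t, t0 ≤ t → t < u → 16 ≤ M t
  Q1 : ∀ t, t0 ≤ t → t < u → 1 ≤ Q t ∧ 16 * η * Q t ≤ Real.sqrt (M t)
  eta : 0 < η ∧ η ≤ 1 / 8

/-- the linear form in the coefficients of `G[U]` -/
def lf {V ι : Type} [DecidableEq V] (c : Finset V → ι) (x : ι → Bool) (U : Finset V)
    (u t0 : ℕ) (θ : ℕ → ℝ) : ℝ :=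
  ∑ r ∈ Ico t0 u, θ r * hh c x U (u + 1 - r)

/-- number of tuples -/
def LL (n : ℕ) : ℕ := n.choose (2 * kk n) / n ^ 5

/-- precision -/
def et (n : ℕ) : ℝ := n / Real.sqrt (LL n)

/-- number of private sets -/
def MM (n t : ℕ) : ℝ := ((uu n).choose t : ℝ) / 2

/-- moduli -/
def QQ (n t : ℕ) : ℕ := ⌊Real.sqrt (MM n t) / (16 * et n)⌋₊

end

end Pool.Agent.HAR
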