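import Pool.Agent.HAR.Defs

/-!
# Squad HAR (MP_09e7c7_co): statements

All rows are independent: a row may use the statements named in the column `uses` of the table
`har` as hypotheses.  Complete proofs are in the docstrings.

Idea.  `P` is random: `K_1 ∈ P`, and the bits `x_F = [F ∈ P]` (`F` up to isomorphism) are independent
fair coins.  For a typical graph `G` and every other graph `H` of the same order the probability
that all coefficients agree is at most `2 ^ (-0.505 n²)`, and there are only `2 ^ (n² / 2)` graphs `H`.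
-/

namespace Pool.Agent.HAR

open Finset Filter Topology

noncomputable section

/-! ## A. Partitions -/

/-- REC: the block of a vertex.

Proof.  Every partition of `U` has exactly one block `S` which contains `v`, and the other blocks
form a partition of `U \ S` with one block less (`Finpartition.avoid`, `Finpartition.extend`); this is a
bijection of the set of the partitions which are counted by `hh c x U (j + 1)` and the disjoint union
of the sets which are counted by `hh c x (U \ S) j`, `v ∈ S ⊆ U`, `S` allowed. -/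
def RecStmt : Prop := ∀ (V ι : Type) [DecidableEq V] (c : Finset V → ι) (x : ι → Bool)
  (U : Finset V) (v : V), v ∈ U → ∀ j : ℕ, hh c x U (j + 1) =
    ∑ S ∈ U.powerset.filter (fun S => v ∈ S ∧ (S.card = 1 ∨ x (c S) = true)), hh c x (U \ S) j

/-- TOP: the largest blocks.

Proof.  In a partition of `U` into `j` blocks every block has at most `U.card + 1 - j` elements.  If
`U.card + 1 < j + t` then all blocks have less than `t` elements, they are not in `T`, and a block
which is not a singleton (`2 ≤ card`) is allowed for `x` iff it is allowed for `x'`.  If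
`j = U.card + 1 - t` then all blocks have at most `t` elements, and if a block has `t` elements then the
others are singletons.  So the partitions without a block in `T` are allowed for `x` iff they are
allowed for `x'`, and the partitions with a block in `T` are the partitions
`{S} ∪ (singletons outside of S)`, `S ∈ T`, one for every `S ∈ T` (`2 ≤ t`), allowed for `x` iff
`x (c S)`. -/
def TopStmt : Prop := ∀ (V ι : Type) [DecidableEq V] (c : Finset V → ι) (U : Finset V) (t : ℕ)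
  (T : Finset (Finset V)) (x x' : ι → Bool), 2 ≤ t → t ≤ U.card →
  (∀ S ∈ T, S ⊆ U ∧ S.card = t) →
  (∀ B : Finset V, B ⊆ U → B.card ≤ t → B ∉ T → 2 ≤ B.card → x (c B) = x' (c B)) →
  (∀ j : ℕ, U.card + 1 < j + t → hh c x U j = hh c x' U j) ∧
  (hh c x U (U.card + 1 - t) : ℤ) - (T.filter fun S => x (c S) = true).card =
    (hh c x' U (U.card + 1 - t) : ℤ) - (T.filter fun S => x' (c S) = true).card

/-! ## B. Probability -/

/-- COS: `|cos π z| ≤ exp (-2 ‖z‖²)`.

Proof.  `|cos π z| = cos (π ‖z‖)`, `‖z‖ = |z - round z| ≤ 1/2`, `cos y ≤ 1 - 2 y² / π²` for `|y| ≤ π`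
(`Real.cos_quadratic_upper_bound`), `1 - a ≤ exp (-a)`. -/
def CosStmt : Prop := ∀ z : ℝ, |Real.cos (Real.pi * z)| ≤ Real.exp (-(2 * nd z ^ 2))

/-- ANT: anti-concentration modulo `1` at a small scale.

Proof.  Let `r = nd θ`, `Y = a + θ X`, `X` the number of the `t` with `x t`.  There is an integer `ℓ ≥ 1`
with `ℓ η ≤ 1/8` and `nd (ℓ θ) ≥ 1/√M`: if `r ≥ 1/√M` take `ℓ = 1`; otherwise `ℓ = ⌈1/(r √M)⌉`, then
`ℓ ≤ 2/(r √M) ≤ 1/(8 η)` (hypothesis: `r √M ≥ 16 η`), `1/√M ≤ ℓ r < 2/√M ≤ 1/2`, so `nd (ℓ θ) = ℓ r`.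
If `nd Y < η` then `nd (ℓ Y) ≤ ℓ nd Y ≤ 1/8` and `cos (2π ℓ Y) ≥ cos (π/4) > 0.7`.  If this had
probability `p > 3/4` then `|E exp (2πi ℓ Y)| ≥ 0.7 p - (1 - p) > 0.27`; but
`|E exp (2πi ℓ Y)| = |(1 + exp (2πi ℓ θ)) / 2| ^ card T = |cos (π ℓ θ)| ^ card T
≤ exp (-2 nd (ℓ θ)² card T) ≤ exp (-2) < 0.14` (COS). -/
def AntStmt : Prop := ∀ (T : Type) [Fintype T] (M η θ a : ℝ), 16 ≤ M → M ≤ Fintype.card T →
  0 < η → η ≤ 1 / 8 → 16 * η ≤ nd θ * Real.sqrt M →
  pr (fun x : T → Bool => nd (a + θ * ((univ.filter fun t => x t = true).card : ℝ)) < η) ≤ 3 / 4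

/-- FOU: small ball probability by finite Fourier analysis.

Proof.  For an integer `m` and `Q ≥ 1`, `Q⁻¹ ∑_(θ<Q) exp (2πi θ m / Q)` is `1` if `Q ∣ m` and `0`
otherwise.  So the indicator function of the event is at most the product over `j` of these sums
with `m = m_j = ∑ S, x_S v S j - y j`, that is
`(∏ Q)⁻¹ ∑_θ exp (2πi ∑_j θ_j m_j / Q_j)`.  Average over `x`:
`|E exp (2πi ∑_S x_S z_S)| = ∏_S |(1 + exp (2πi z_S)) / 2| = ∏_S |cos (π z_S)|`,
`z_S = ∑_j θ_j v S j / Q_j`. -/
def FouStmt : Prop := ∀ (F J : Type) [Fintype F] [Fintype J] [DecidableEq J] (Q : J → ℕ)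
  (v : F → J → ℤ) (y : J → ℤ), (∀ j, 0 < Q j) →
  pr (fun x : F → Bool => ∀ j, ∑ S, (if x S = true then v S j else 0) = y j) ≤
    (∏ j, (Q j : ℝ))⁻¹ * ∑ θ : (∀ j, Fin (Q j)),
      ∏ S, |Real.cos (Real.pi * ∑ j, ((θ j : ℕ) : ℝ) * v S j / Q j)|

/-- CON: conditioning.

Proof.  `(ι → Bool) ≃ (D → Bool) × (Dᶜ → Bool)`; count the elements of the event over every element
of the second factor. -/
def ConStmt : Prop := ∀ (ι : Type) [Finite ι] [DecidableEq ι] (D : Finset ι)
  (E : (ι → Bool) → Prop) (p : ℝ),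
  (∀ x₀ : ι → Bool, pr (fun y : D → Bool => E fun i => if h : i ∈ D then y ⟨i, h⟩ else x₀ i) ≤ p) →
  pr E ≤ p

/-- PRD: independent events.

Proof.  `((Σ i, T i) → Bool) ≃ ∀ i, T i → Bool` (`Equiv.piCurry`), the event is a product set
(`Fintype.piFinset`), its proportion is the product of the proportions. -/
def PrdStmt : Prop := ∀ (K : ℕ) (T : Fin K → Type) [∀ i, Finite (T i)]
  (E : ∀ i, (T i → Bool) → Prop) (p : ℝ), (∀ i, pr (E i) ≤ p) →
  pr (fun x : (Σ i, T i) → Bool => ∀ i, E i fun t => x ⟨i, t⟩) ≤ p ^ K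

/-- PRB: elementary properties of `pr`.

Proof.  Counting. -/
def PrbStmt : Prop := (∀ (Ω : Type) [Finite Ω] (E F : Ω → Prop), (∀ ω, E ω → F ω) → pr E ≤ pr F) ∧
  (∀ (Ω : Type) [Finite Ω] (E F : Ω → Prop), pr (fun ω => E ω ∨ F ω) ≤ pr E + pr F) ∧
  (∀ (Ω X : Type) [Finite Ω] [Finite X] (E : X → Ω → Prop) (p : ℝ), (∀ a, pr (E a) ≤ p) →
    pr (fun ω => ∃ a, E a ω) ≤ Nat.card X * p) ∧
  (∀ (Ω Ω' : Type) (e : Ω ≃ Ω') (E : Ω' → Prop), pr (fun ω => E (e ω)) = pr E) ∧
  (∀ (Ω : Type) [Finite Ω] (E : Ω → Prop), 0 ≤ pr E ∧ pr E ≤ 1) ∧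
  ∀ (Ω : Type) [Finite Ω] (E : Ω → Prop), pr E < 1 → Nonempty Ω → ∃ ω, ¬ E ω

/-- MKV: Markov's inequality for the number of the events which occur.

Proof.  `∑_ω #{a : E a ω} = ∑_a #{ω : E a ω} ≤ card X * p * card Ω`; if more than `q card Ω` of the `ω`
had `#{a : E a ω} > s` then the left side would be larger than `q s card Ω`. -/
def MkvStmt : Prop := ∀ (Ω X : Type) [Finite Ω] [Finite X] (E : X → Ω → Prop) (p s : ℝ),
  0 < s → (∀ a, pr (E a) ≤ p) →
  pr (fun ω => s < (Nat.card {a // E a ω} : ℝ)) ≤ Nat.card X * p / s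

/-! ## C. The small ball bound -/

/-- SPR: the linear form is spread.

Proof.  Let `D = {c S : S ∈ T i, i < K}` (finset image).  The map `(i, S) ↦ c S` is injective on
`{(i, S) : S ∈ T i}` (uniqueness `∀ B, c B = c S → B = S`, and `S ⊆ U i'` only for `i' = i`).  CON with
this `D`: fix `x₀` outside of `D`.  For `B ⊆ U i`, `B ∉ T i`, the class `c B` is not in `D`: `c B = c S` with
`S ∈ T i'` gives `B = S ∈ T i'`, `S ⊆ U i`, `i = i'`.  So TOP (for `U i`, `T i`, `t`, the function `x` and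
the function `x'` with `x' = false` on `D`) gives
`lf c x (U i) u t0 θ = a_i + θ t * #{S ∈ T i : x (c S)}` with `a_i` independent of the bits in `D`:
the terms `r > t` have `θ r = 0`, the term `r = t` is TOP (second part), and the terms `r < t` have
`j = u + 1 - r`, `U.card + 1 < j + t` (first part).  By ANT each of the events
`nd (a_i + θ t X_i) < η` has probability at most `3/4`, and they are independent (PRD, after the
identification of the finset `D` with `Σ i, T i`). -/
def SprStmt : Prop := ∀ (V ι : Type) [DecidableEq V] [Fintype ι] [DecidableEq ι]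
  (c : Finset V → ι) (K u t0 t : ℕ) (U : Fin K → Finset V) (T : Fin K → Finset (Finset V))
  (θ : ℕ → ℝ) (M η : ℝ), (∀ i, (U i).card = u) → 2 ≤ t → t0 ≤ t → t < u →
  (∀ r, t < r → θ r = 0) → 16 ≤ M → 0 < η → η ≤ 1 / 8 → 16 * η ≤ nd (θ t) * Real.sqrt M →
  (∀ i, M ≤ (T i).card) →
  (∀ i, ∀ S ∈ T i, S ⊆ U i ∧ S.card = t ∧ (∀ B, c B = c S → B = S) ∧ ∀ i', S ⊆ U i' → i' = i) →
  pr (fun x : ι → Bool => ∀ i, nd (lf c x (U i) u t0 θ) < η) ≤ (3 / 4) ^ K

/-- BAD: all linear forms are spread.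

Proof.  Union bound (PRB) over the `θ : ∀ r : Ico t0 u, Fin (Q r)`, not zero, and over `l < L`.  For
such a `θ` let `t` be the largest `r` with `θ r ≠ 0`, and apply SPR to the real function
`r ↦ θ r / Q r` (`0` outside of `Ico t0 u`): `nd (θ t / Q t) ≥ 1 / Q t`, as `0 < θ t < Q t`, so
`nd (θ t / Q t) √(M t) ≥ √(M t) / Q t ≥ 16 η` (`Dat.Q1`).  The number of the pairs is at most
`(∏ Q) L`. -/
def BadStmt : Prop := ∀ (V ι : Type) [Fintype V] [DecidableEq V] [Fintype ι] [DecidableEq ι]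
  (c c' : Finset V → ι) (v0 : V) (u t0 K L : ℕ) (η : ℝ) (M : ℕ → ℝ) (Q : ℕ → ℕ)
  (τ : Fin L → Fin K → Finset V) (T : Fin L → Fin K → ℕ → Finset (Finset V)),
  Dat c c' v0 u t0 K L η M Q τ T →
  pr (fun x : ι → Bool => ∃ θ : ℕ → ℕ, (∀ r ∈ Ico t0 u, θ r < Q r) ∧ (∃ r ∈ Ico t0 u, θ r ≠ 0) ∧
      ∃ l, ∀ i, nd (lf c x (τ l i) u t0 fun r => (θ r : ℝ) / Q r) < η) ≤
    (∏ r ∈ Ico t0 u, (Q r : ℝ)) * L * (3 / 4) ^ K

/-- LIN: the equations for the fresh bits.

Proof.  `Vᵤ(l,i) = univ \ τ l i =: S(l,i)` contains `v0` and has at least two elements (`Dat.u_le`).  By REC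
for `U = univ`, `v = v0`: `hh c x univ (j + 1) = ∑_(S ∋ v0, S allowed) hh c x (univ \ S) j`.  Let `x, x'` agree
outside of `D = {c (S(l,i))}`.  A block `B` with `c B ∈ D` is one of the `S(l,i)` (`Dat.uq`), so it contains
`v0`; so `hh c x (univ \ S) j = hh c x' (univ \ S) j` for `v0 ∈ S` (no block of a partition of `univ \ S`
contains `v0`), and the set `S` itself is allowed for `x` iff for `x'` unless `S = S(l,i)`.  The sets
`S(l,i)` are different for different `(l, i)` (`Dat.inj`), and `univ \ S(l,i) = τ l i`.  For `c'` no block has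
its class in `D` (`Dat.fr`). -/
def LinStmt : Prop := ∀ (V ι : Type) [Fintype V] [DecidableEq V] [Fintype ι] [DecidableEq ι]
  (c c' : Finset V → ι) (v0 : V) (u t0 K L : ℕ) (η : ℝ) (M : ℕ → ℝ) (Q : ℕ → ℕ)
  (τ : Fin L → Fin K → Finset V) (T : Fin L → Fin K → ℕ → Finset (Finset V)),
  Dat c c' v0 u t0 K L η M Q τ T → ∀ x x' : ι → Bool,
  (∀ i, (∀ l k, i ≠ c (univ \ τ l k)) → x i = x' i) →
  (∀ l k j, hh c x (τ l k) j = hh c x' (τ l k) j) ∧ (∀ j, hh c' x univ j = hh c' x' univ j) ∧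
  ∀ j : ℕ, (hh c x univ (j + 1) : ℤ) - ∑ l, ∑ k, (if x (c (univ \ τ l k)) = true then
      (hh c x' (τ l k) j : ℤ) else 0) =
    (hh c x' univ (j + 1) : ℤ) - ∑ l, ∑ k, (if x' (c (univ \ τ l k)) = true then
      (hh c x' (τ l k) j : ℤ) else 0)

/-- COR: the small ball bound.

Proof.  Let `E` be the event `∀ j, hh c x univ j = hh c' x univ j` and `B` the event of BAD.
`pr E ≤ pr B + pr (E ∧ ¬B)`.  CON with `D = {c (univ \ τ l k)}` (`K L` different classes: `Dat.inj`,
`Dat.uq`): fix `x₀` outside of `D`.  By LIN the event `B` does not depend on the bits in `D`; if it holds then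
`E ∧ ¬B` is empty.  Otherwise `E` implies, for all `r ∈ Ico t0 u` (with `j = u + 1 - r`),
`∑_(l,k) [x (c (univ \ τ l k))] hh c x₀ (τ l k) j = y_r` with `y_r` independent of the bits in `D` (LIN with
`x' = ` the function which is `false` on `D`).  FOU with `F = Fin L × Fin K`, `J = Ico t0 u`: the term
`θ = 0` gives `(∏ Q)⁻¹`; for `θ ≠ 0` and every `l` there is, by `¬B`, a `k` with
`nd (lf c x₀ (τ l k) u t0 (θ / Q)) ≥ η`, so by COS the product of the cosines is at most
`exp (-2 η² L)`; there are at most `∏ Q` such terms. -/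
def CorStmt : Prop := ∀ (V ι : Type) [Fintype V] [DecidableEq V] [Fintype ι] [DecidableEq ι]
  (c c' : Finset V → ι) (v0 : V) (u t0 K L : ℕ) (η : ℝ) (M : ℕ → ℝ) (Q : ℕ → ℕ)
  (τ : Fin L → Fin K → Finset V) (T : Fin L → Fin K → ℕ → Finset (Finset V)),
  Dat c c' v0 u t0 K L η M Q τ T →
  pr (fun x : ι → Bool => ∀ j, hh c x univ j = hh c' x univ j) ≤
    (∏ r ∈ Ico t0 u, (Q r : ℝ)) * L * (3 / 4) ^ K + (∏ r ∈ Ico t0 u, (Q r : ℝ))⁻¹ +
      Real.exp (-(2 * η ^ 2 * L))

/-! ## D. Typical graphs -/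

/-- CNT: random graphs with constraints.

Proof.  A simple graph on `Fin n` is a set of non-diagonal pairs.  For every choice of the adjacency
of the pairs outside of `P` there is at most one choice of the adjacency of the pairs in `P` (the pairs
`f e` are not in `P`), so the map (graph ↦ adjacency outside of `P`) is injective on the event; and
there are `2 ^ card P` times as many graphs as restrictions. -/
def CntStmt : Prop := ∀ (n : ℕ) (P : Finset (Sym2 (Fin n))) (f : Sym2 (Fin n) → Sym2 (Fin n)),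
  (∀ e ∈ P, ¬ e.IsDiag) → (∀ e ∈ P, f e ∉ P) →
  pr (fun G : SimpleGraph (Fin n) => ∀ e ∈ P, (e ∈ G.edgeSet ↔ f e ∈ G.edgeSet)) ≤
    (1 / 2) ^ P.card

/-- THD: a third of the moved points.

Proof.  Let `D' ⊆ D` be a maximal subset with `φ x ∉ D'` for all `x ∈ D'`.  Every `y ∈ D` which is not in
`D'` has `φ y ∈ D'`, or `φ x = y` for some `x ∈ D'` (`φ y ≠ y`); as `φ` is injective on `D` there are at most
`card D'` points `y` of each kind. -/
def ThdStmt : Prop := ∀ (V : Type) [DecidableEq V] (D : Finset V) (φ : V → V), Set.InjOn φ D →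
  (∀ x ∈ D, φ x ≠ x) → ∃ D' ⊆ D, D.card ≤ 3 * D'.card ∧ ∀ x ∈ D', φ x ∉ D'

/-- PHA: an injection which moves few points is rarely an embedding.

Proof.  `D` = the moved points, `Z = I \ D` the fixed points, `D'` as in THD.  CNT with
`P = {{x, z} : x ∈ D', z ∈ Z}` (`card = card D' * card Z ≥ (m / 3) (card I / 2)`) and `f = Sym2.map φ`:
`f {x, z} = {φ x, z}`, and `φ x ∉ D'`, `φ x ∉ Z` (`φ` is injective on `I`, `φ z = z`), so it is not in `P`.  If `φ` is an
embedding then the constraints hold. -/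
def PhaStmt : Prop := ∀ (n : ℕ) (I : Finset (Fin n)) (φ : Fin n → Fin n), Set.InjOn φ I →
  2 * (I.filter fun x => φ x ≠ x).card ≤ I.card →
  pr (fun G : SimpleGraph (Fin n) => IsE G G I φ) ≤
    (2 : ℝ) ^ (-(((I.filter fun x => φ x ≠ x).card * I.card : ℕ) / 6 : ℝ))

/-- PHB: an injection which moves many points is rarely an embedding.

Proof.  The same with `P = {{x, y} : x ≠ y ∈ D'}`, `card P = d (d - 1) / 2`, `d = card D' ≥ m / 3 ≥ i / 6`,
`i = card I`: `f {x, y} = {φ x, φ y}` is not in `P` as `φ x ∉ D'`.  `d (d - 1) / 2 ≥ i² / 72 - i / 12 ≥ i² / 80`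
for `i ≥ 60`. -/
def PhbStmt : Prop := ∀ (n : ℕ) (I : Finset (Fin n)) (φ : Fin n → Fin n), Set.InjOn φ I →
  I.card < 2 * (I.filter fun x => φ x ≠ x).card → 60 ≤ I.card →
  pr (fun G : SimpleGraph (Fin n) => IsE G G I φ) ≤ (2 : ℝ) ^ (-((I.card : ℝ) ^ 2 / 80))

/-- UQP: a set is rarely not unique.

Proof.  `IsE G G I φ` depends only on the restriction of `φ` to `I`.  Union bound over the injective
maps `φ : I → Fin n` which are not the inclusion.  Number of maps with `m` moved points: at most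
`C(i, m) n^m ≤ n^(2m)`.  The `m ≤ i/2`: `∑_(m≥1) (n² 2^(-i/6))^m ≤ 2 n² 2^(-i/6)` by PHA, with `n ≤ 100 i`
at most `(1/2) 2^(-i/7)` for large `i`.  The others: at most `n^i 2^(-i²/80) ≤ (100 i)^i 2^(-i²/80)`, by
PHB, at most `(1/2) 2^(-i/7)` for large `i`. -/
def UqpStmt : Prop := ∃ i0 : ℕ, ∀ (n : ℕ) (I : Finset (Fin n)), i0 ≤ I.card → n ≤ 100 * I.card →
  pr (fun G : SimpleGraph (Fin n) => ¬ Uq G I) ≤ (2 : ℝ) ^ (-((I.card : ℝ) / 7))

/-- TYP: almost all graphs are typical.

Proof.  Let `i ≥ tt n`, so `n ≤ 100 i`.  By UQP and MKV (`Ω` = graphs, `X` = the `i`-sets) the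
probability that more than `s = 2^(-i/14) C(n, i)` of the `i`-sets are not unique is at most
`2^(-i/7) C(n, i) / s = 2^(-i/14) ≤ 2^(-n/1400)`.  Union over `i ≤ n`: `(n + 1) 2^(-n/1400) ≤ exp (-c n)`
for large `n`, with `c = 1/4000`; and `s ≤ exp (-c n) C(n, i)`. -/
def TypStmt : Prop := ∃ c : ℝ, 0 < c ∧ ∀ᶠ n : ℕ in atTop,
  pr (fun G : SimpleGraph (Fin n) => ¬ Ty n (Real.exp (-(c * n))) G) ≤ Real.exp (-(c * n))

/-! ## E. Fresh sets -/

/-- PRM: the image of a set under a random permutation.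

Proof.  For `S, S'` with `s` elements the number of permutations with `S0.map π = S` equals the number
with `S0.map π = S'` (compose with a permutation which maps `S` onto `S'`); the `C(n, s)` numbers add
up to `n!`. -/
def PrmStmt : Prop := ∀ (n s : ℕ) (S0 : Finset (Fin n)) (B : Finset (Finset (Fin n))),
  S0.card = s → (∀ S ∈ B, S.card = s) →
  pr (fun π : Equiv.Perm (Fin n) => S0.map π.toEmbedding ∈ B) = (B.card : ℝ) / n.choose s

/-- CVR: a cover by twelve sets.

Proof.  `k = kk n`, `12 k ≥ n`, `2 k ≤ n` for `n ≥ 22`.  `A a` is the interval of length `k` starting at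
`min (a k) (n - k)`; `S a b` is any set of size `2 k` containing `A a ∪ A b`
(`Finset.exists_superset_card_eq`). -/
def CvrStmt : Prop := ∀ n : ℕ, 22 ≤ n → ∃ (A : Fin 12 → Finset (Fin n))
  (S : Fin 12 → Fin 12 → Finset (Fin n)), (∀ a, (A a).card = kk n) ∧ (∀ x, ∃ a, x ∈ A a) ∧
  ∀ a b, (S a b).card = 2 * kk n ∧ A a ⊆ S a b ∧ A b ⊆ S a b

/-- ONE: most sets have at most one embedding.

Proof.  For every `I` with `Uq G I` and `Em G H I` choose an embedding `f_I`, and if `¬ One G H I` another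
embedding `g_I` which differs from it at a point of `I`.  The images `f_I(I)`, `g_I(I)` are `k`-subsets,
and they are all different: if `f(I) = f'(I')` for embeddings `f` of `G[I]`, `f'` of `G[I']` into `H` then
`f'⁻¹ ∘ f` (extended by the identity) is an embedding of `G[I]` into `G` with image `I'`, so it is the
inclusion, as `I` is unique: `I = I'` and `f = f'` on `I`.  There are `C(n, k)` sets of size `k`. -/
def OneStmt : Prop := ∀ (n k : ℕ) (G H : SimpleGraph (Fin n)),
  Nat.card {I : Finset (Fin n) // I.card = k ∧ Uq G I ∧ Em G H I} +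
    Nat.card {I : Finset (Fin n) // I.card = k ∧ Uq G I ∧ Em G H I ∧ ¬ One G H I} ≤ n.choose k

/-- GLU: gluing embeddings.

Proof.  Let `f_a` be an embedding of `G[A a]`, `f_ab` one of `G[S a b]`; `f_ab` restricted to `A a` is an
embedding of `G[A a]`, so it equals `f_a` on `A a`, and `f_b` on `A b` (`One`).  If `x ∈ A a ∩ A b` then
`f_a x = f_ab x = f_b x`; so `F x = f_a x` for `x ∈ A a` is well defined, and for `x ∈ A a`, `y ∈ A b`,
`F = f_ab` at `x` and `y`, which gives injectivity and the equivalence of the adjacencies.  An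
injective map of a finite set to itself is bijective. -/
def GluStmt : Prop := ∀ (n : ℕ) (G H : SimpleGraph (Fin n)) (A : Fin 12 → Finset (Fin n))
  (S : Fin 12 → Fin 12 → Finset (Fin n)), (∀ x, ∃ a, x ∈ A a) →
  (∀ a b, A a ⊆ S a b ∧ A b ⊆ S a b) → (∀ a, One G H (A a)) → (∀ a b, Em G H (S a b)) →
  Nonempty (G ≃g H)

/-- FRS: fresh sets.

Proof.  `k = kk n`, `s = 2 k`; both are between `tt n` and `n` for large `n`.  Assume the number is less
than `C(n, s) / 200`.  Then the number of `s`-sets which do not embed is at most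
`(1/200 + ε) C(n, s)`, `ε = 1/2000`, by `Ty`.  The proportion of the `k`-sets which do not embed is at
most the proportion of the `s`-sets which do not embed (PRM for a `k`-subset `A0` of an `s`-set `S0`:
if `A0.map π` does not embed then `S0.map π` does not embed).  So the proportion of the `k`-sets which
are not unique or do not embed is at most `1/200 + 2 ε`, and by ONE the proportion of the `k`-sets
with `¬ One G H I` is at most `2 (1/200 + 2 ε) = 0.012`.  CVR, PRM and the union bound over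
the `144` sets `S a b` (proportion at most `0.0055` each) and the `12` sets `A a`:
`144 * 0.0055 + 12 * 0.012 = 0.936 < 1`.  So there is a permutation `π` for which
all the images are good, and GLU (for the images `(A a).map π`, which cover) gives `G ≃g H`. -/
def FrsStmt : Prop := ∀ᶠ n : ℕ in atTop, ∀ G H : SimpleGraph (Fin n), Ty n (1 / 2000) G →
  ¬ Nonempty (G ≃g H) → (n.choose (2 * kk n) : ℝ) / 200 ≤
    Nat.card {S : Finset (Fin n) // S.card = 2 * kk n ∧ Uq G S ∧ ¬ Em G H S}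

/-- GDU: good sets.

Proof.  For fixed `t`: `∑_U #{T ⊆ U : card T = t, ¬ Uq} = #{T : card T = t, ¬ Uq} * C(n - t, u - t)
≤ ε C(n, t) C(n - t, u - t) = ε C(n, u) C(u, t)` (`Nat.choose_mul`), so at most `4 ε C(n, u)` of the `U` have more
than `C(u, t) / 4` such subsets `T`.  Union over `t ≤ n`. -/
def GduStmt : Prop := ∀ (n : ℕ) (ε : ℝ) (G : SimpleGraph (Fin n)), Ty n ε G → 0 ≤ ε →
  (Nat.card {U : Finset (Fin n) // U.card = uu n ∧ ∃ t, tt n ≤ t ∧ t < uu n ∧
      ((uu n).choose t : ℝ) < 4 * Nat.card {S : Finset (Fin n) // S ⊆ U ∧ S.card = t ∧ ¬ Uq G S}} : ℝ)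
    ≤ 4 * n * ε * n.choose (uu n)

/-- FAM: the family.

Proof.  By FRS there are at least `C(n, s) / 200` fresh `s`-sets `S`, `s = 2 kk n`; `U = univ \ S` has
`uu n` elements; by GDU, with `ε = exp (-c n)`, at most `4 n exp (-c n) C(n, s) ≤ C(n, s) / 400` of them are
not good.  So at least `C(n, s) / 400` sets `S` are left, each has `s ≥ n / 6` elements, so some
vertex `v0` is in at least `C(n, s) / 2400` of them (double counting). -/
def FamStmt : Prop := ∀ c : ℝ, 0 < c → ∀ᶠ n : ℕ in atTop, ∀ G H : SimpleGraph (Fin n),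
  Ty n (Real.exp (-(c * n))) G → ¬ Nonempty (G ≃g H) → ∃ (v0 : Fin n) (F : Finset (Finset (Fin n))),
    (n.choose (2 * kk n) : ℝ) / 2400 ≤ F.card ∧ ∀ U ∈ F, U.card = uu n ∧ v0 ∉ U ∧
      Uq G (univ \ U) ∧ ¬ Em G H (univ \ U) ∧ ∀ t, tt n ≤ t → t < uu n →
        4 * (Nat.card {S : Finset (Fin n) // S ⊆ U ∧ S.card = t ∧ ¬ Uq G S} : ℝ) ≤
          (uu n).choose t

/-! ## F. Tuples -/

/-- GRD: disjoint tuples of pairwise unrelated elements.

Proof.  Greedy.  Choose the elements one after the other: when `m < L K` elements are chosen, at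
least `card X - L K ≥ K D` elements of `X` are not yet used, and at most `(K - 1) D` of them are related
to the (at most `K - 1`) elements already chosen for the present tuple.  (Induction on `L`, and
inside on `K`.) -/
def GrdStmt : Prop := ∀ (α : Type) [DecidableEq α] (X : Finset α) (R : α → α → Prop)
  (D K L : ℕ), (∀ a b, R a b → R b a) → (∀ a, Nat.card {b // b ∈ X ∧ R a b} ≤ D) →
  L * K + K * D ≤ X.card → ∃ τ : Fin L → Fin K → α, (∀ l i, τ l i ∈ X) ∧
    (∀ l i l' i', τ l i = τ l' i' → l = l' ∧ i = i') ∧ ∀ l i i', i ≠ i' → ¬ R (τ l i) (τ l i')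

/-- NEA: the number of sets close to a given one.

Proof.  `U'` is determined by `U \ U'` (`a < g` elements) and `U' \ U` (`a` elements, as the
cardinalities agree): at most `∑_(a<g) C(n, a) C(n, a) ≤ ∑_(a<g) n^(2a) ≤ n^(2g)`. -/
def NeaStmt : Prop := ∀ (n g u : ℕ) (U : Finset (Fin n)), 2 ≤ n → U.card = u →
  Nat.card {U' : Finset (Fin n) // U'.card = u ∧ u < (U ∩ U').card + g} ≤ n ^ (2 * g)

/-- PRI: private sets.

Proof.  The number of `t`-subsets of `U` is `C(u, t)`; at most `C(u, t) / 4` are not unique; the ones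
contained in `U' i` are subsets of `U ∩ U' i`, which has at most `u - g` elements: at most
`K C(u - g, t)`, and `C(u - g, t) ≤ (1 - g/u)^t C(u, t) ≤ exp (-g t / u) C(u, t)`. -/
def PriStmt : Prop := ∀ (n u g t K : ℕ) (G : SimpleGraph (Fin n)) (U : Finset (Fin n))
  (U' : Fin K → Finset (Fin n)), U.card = u → 0 < u → g ≤ u → (∀ i, (U ∩ U' i).card + g ≤ u) →
  4 * (Nat.card {S : Finset (Fin n) // S ⊆ U ∧ S.card = t ∧ ¬ Uq G S} : ℝ) ≤ u.choose t →
  4 * K * Real.exp (-((g : ℝ) * t / u)) ≤ 1 →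
  (u.choose t : ℝ) / 2 ≤
    Nat.card {S : Finset (Fin n) // S ⊆ U ∧ S.card = t ∧ Uq G S ∧ ∀ i, ¬ S ⊆ U' i}

/-! ## G. Numbers -/

/-- CHO: lower bound for binomial coefficients.

Proof.  The number `C(n, s) s^s (n - s)^(n - s)` is the largest of the `n + 1` terms
`C(n, i) s^i (n - s)^(n - i)`, whose sum is `n^n` (the ratio of consecutive terms is
`(n - i) s / ((i + 1) (n - s))`, at least `1` iff `i + 1 ≤ s + s/n`...: it is `≥ 1` for `i < s` and `≤ 1` for
`i ≥ s`). -/
def ChoStmt : Prop := ∀ n s : ℕ, 0 < s → s < n →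
  n ^ n ≤ (n + 1) * (n.choose s * (s ^ s * (n - s) ^ (n - s)))

/-- CPR: the product of the binomial coefficients.

Proof.  `f(u) = ∏_(t ≤ u) C(u, t)`, `f(u) = f(u - 1) u^u / u!` (`C(u, t) / C(u - 1, t) = u / (u - t)` for `t < u`),
and `m^m / m! ≥ exp (m - 1) / m`, that is `m! ≤ m^(m + 1) exp (1 - m)` (induction:
`(1 + 1/m)^(m+1) ≥ e`).  So `f(u) ≥ exp (u (u - 1) / 2) / u!`. -/
def CprStmt : Prop := ∀ u : ℕ, (u : ℝ) * (u - 1) / 2 - Real.log (u.factorial) ≤
  ∑ t ∈ range (u + 1), Real.log (u.choose t)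

/-- NU1: the size of the binomial coefficient.

Proof.  `s = 2 kk n ∈ [n/6, n/6 + 2]`.  By CHO `log C(n, s) ≥ n h(s/n) - log (n + 1)`, `h = Real.binEntropy`,
which is increasing on `[0, 1/2]`, so `h(s/n) ≥ h(1/6) = log 6 - (5/6) log 5`.  `log 3 ≥ (19/12) log 2`
(`2^19 ≤ 3^12`), `log 5 ≤ (72/31) log 2` (`5^31 ≤ 2^72`): `h(1/6) ≥ (31/12 - 60/31) log 2 > 0.6478 log 2`. -/
def Nu1Stmt : Prop := ∀ᶠ n : ℕ in atTop, 0.6477 * Real.log 2 * n ≤
  Real.log (n.choose (2 * kk n))

/-- NU2: bounds for the parameters.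

Proof.  `C(n, s) ≥ 2^(0.64 n)` for large `n` (NU1), so `LL n ≥ C(n, s) / (2 n^5)` is large and `et n` is small.
`QQ n t ≤ √(C(u, t)) √(LL n) ≤ 2^(n/2) 2^(n/2)`.  `MM n t ≥ C(u, t)/2 ≥ u/2 ≥ 16` for `1 ≤ t < u`.
`16 (et n) (QQ n t) ≤ √(MM n t)` by the definition of the floor (`et n > 0`), and `QQ n t ≥ 1` as
`√(MM n t) ≥ 4 ≥ 16 et n`.  `LL n * K + K n^(2g) ≤ C(n, s) / 2400` with `K = 5 n²`, `g = √n`:
`5 n² LL n ≤ 5 n^(-3) C(n, s)`, `5 n² n^(2√n) ≤ 2^(0.1 n)`.  `(et n)² LL n = n²`.  `4 K exp (-g t / u) ≤ 1`, `t ≥ n/100`. -/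
def Nu2Stmt : Prop := ∀ᶠ n : ℕ in atTop, 0 < LL n ∧ (LL n : ℝ) ≤ 2 ^ n ∧ 0 < et n ∧ et n ≤ 1 / 8 ∧
  et n ^ 2 * LL n = (n : ℝ) ^ 2 ∧ uu n + 2 ≤ n ∧ 2 ≤ tt n ∧ Nat.sqrt n ≤ uu n ∧
  (LL n : ℝ) * (5 * n ^ 2) + 5 * n ^ 2 * n ^ (2 * Nat.sqrt n) ≤ (n.choose (2 * kk n) : ℝ) / 2400 ∧
  ∀ t, tt n ≤ t → t < uu n → 16 ≤ MM n t ∧ 1 ≤ QQ n t ∧ (QQ n t : ℝ) ≤ 2 ^ n ∧
    16 * et n * QQ n t ≤ Real.sqrt (MM n t) ∧
    4 * (5 * (n : ℝ) ^ 2) * Real.exp (-((Nat.sqrt n : ℝ) * t / uu n)) ≤ 1

/-- NU3: the size of the group.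

Proof.  `QQ n t ≥ √(MM n t) / (32 et n) ≥ √(C(u, t) C(n, s)) / n^5` for large `n` (`⌊y⌋ ≥ y / 2` for `y ≥ 1`;
`1 / et n = √(LL n) / n`, `LL n ≥ C(n, s) / (2 n^5)`).  So with `u = uu n ≥ 5n/6 - 2`, `t0 = tt n ≤ n/100 + 1`:
`log ∏ Q ≥ (1/2) ∑_(t0 ≤ t < u) log C(u, t) + (1/2) (u - t0) log C(n, s) - 5 n log n`.  By CPR and
`C(u, t) ≤ 2^u` for `t < t0`: `∑_(t0 ≤ t < u) log C(u, t) ≥ u (u - 1)/2 - log u! - t0 u log 2`.  In units of
`n² log 2`, up to `o(1)`: `(1/2) (25/36) / (2 log 2) - (1/2) (1/100) (5/6) + (1/2) (5/6 - 1/100) 0.6477`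
with `1 / log 2 ≥ 1.4426`: `0.25045 - 0.00417 + 0.26663 = 0.51291 > 0.51`. -/
def Nu3Stmt : Prop := ∀ᶠ n : ℕ in atTop,
  (2 : ℝ) ^ (0.51 * (n : ℝ) ^ 2) ≤ ∏ t ∈ Ico (tt n) (uu n), (QQ n t : ℝ)

/-! ## H. Assembly -/

/-- CLS: isomorphism classes.

Proof.  `cl G = cl H` iff the graphs are isomorphic (the transported graphs on `Fin (Nat.card V)` are
isomorphic to the given ones; `Quotient.eq`).  If `cls G B = cls G S` then an isomorphism
`G[S] ≃g G[B]`, extended by the identity, is an embedding of `G[S]` into `G` with image `B`; so `Uq G S`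
gives `B = S`.  If `cls H B = cls G S` then `G[S]` embeds into `H`. -/
def ClsStmt : Prop := (∀ (V W : Type) [Finite V] [Finite W] (G : SimpleGraph V)
    (H : SimpleGraph W), cl G = cl H ↔ Nonempty (G ≃g H)) ∧
  (∀ (n : ℕ) (G : SimpleGraph (Fin n)) (S : Finset (Fin n)), Uq G S →
    ∀ B, cn G B = cn G S → B = S) ∧
  ∀ (n : ℕ) (G H : SimpleGraph (Fin n)) (S : Finset (Fin n)), ¬ Em G H S →
    ∀ B, cn H B ≠ cn G S

/-- SEL: the data for a typical graph and any other graph.

Proof.  FAM gives `v0` and `F`.  GRD for `X = F`, `R U U'` iff `u < card (U ∩ U') + g`, `g = Nat.sqrt n`,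
`D = n^(2g)` (NEA), `K = 5 n²`, `L = LL n` (NU2).  `T l i t` = the unique `t`-subsets of `τ l i` which are not
contained in `τ l i'` for `i' ≠ i`; at least `C(u, t) / 2` of them (PRI with the `K` sets `U' i' = τ l i'` for `i' ≠ i`
and `U' i = ∅`; `t ≥ 1`, so no `t`-set is contained in `∅`).  The conditions of `Dat` are CLS, NU2 and
the choice. -/
def SelStmt : Prop := ∀ c : ℝ, 0 < c → ∀ᶠ n : ℕ in atTop, ∀ G H : SimpleGraph (Fin n),
  Ty n (Real.exp (-(c * n))) G → ¬ Nonempty (G ≃g H) → ∃ (v0 : Fin n)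
    (τ : Fin (LL n) → Fin (5 * n ^ 2) → Finset (Fin n))
    (T : Fin (LL n) → Fin (5 * n ^ 2) → ℕ → Finset (Finset (Fin n))),
    Dat (cn G) (cn H) v0 (uu n) (tt n) (5 * n ^ 2) (LL n) (et n) (MM n) (QQ n) τ T

/-- PAI: the probability that two graphs have the same polynomial.

Proof.  SEL and COR: at most `2^(n²) 2^n (3/4)^(5 n²) + 2^(-0.51 n²) + exp (-2 n²)` (NU2: `∏ Q ≤ 2^(n²)`,
`LL n ≤ 2^n`, NU3, `et² LL = n²`); `(3/4)^5 ≤ 2^(-2)`; at most `3 * 2^(-0.51 n²) ≤ 2^(-0.505 n²)`. -/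
def PaiStmt : Prop := ∀ c : ℝ, 0 < c → ∀ᶠ n : ℕ in atTop, ∀ G H : SimpleGraph (Fin n),
  Ty n (Real.exp (-(c * n))) G → ¬ Nonempty (G ≃g H) →
  pr (fun x : Cn n → Bool => ∀ j, hh (cn G) x univ j = hh (cn H) x univ j) ≤
    (2 : ℝ) ^ (-(0.505 * (n : ℝ) ^ 2))

/-- `G` has a mate with respect to the bits `x` -/
def Mate {n : ℕ} (x : Cn n → Bool) (G : SimpleGraph (Fin n)) : Prop :=
  ∃ H : SimpleGraph (Fin n), ¬ Nonempty (G ≃g H) ∧ ∀ j, hh (cn G) x univ j = hh (cn H) x univ j

/-- AVG: for most `x` almost all graphs have no mate.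

Proof.  For typical `G`, by PAI and the union bound over the `2^(n(n-1)/2)` graphs `H`:
`pr (Mate x G) ≤ 2^(n²/2) 2^(-0.505 n²) = 2^(-0.005 n²)`.  MKV (`X` = the typical graphs as a
subtype of the graphs): the probability that more than `exp (-c n) 2^(n(n-1)/2) / 2` typical graphs have
mates is at most `2 exp (c n) 2^(-0.005 n²) ≤ (1/2)^(n+2)` for large `n`.  By TYP the number of graphs
which are not typical is at most `exp (-c n) 2^(n(n-1)/2)`.  Take `c' = c / 2`. -/
def AvgStmt : Prop := ∃ c : ℝ, 0 < c ∧ ∀ᶠ n : ℕ in atTop,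
  pr (fun x : Cn n → Bool => Real.exp (-(c * n)) * Nat.card (SimpleGraph (Fin n)) <
    (Nat.card {G : SimpleGraph (Fin n) // Mate x G} : ℝ)) ≤ (1 / 2) ^ (n + 2)

/-- GLB: one property for all orders.

Proof.  `ι → Bool` is compact; let `C n` be the set of the `x` with `Z n (x ∘ e n)`: closed, it depends on
finitely many coordinates.  For every `N` the intersection of the `C n`, `n ≤ N`, is not empty: let `D`
be the union of the ranges of the `e n`, `n ≤ N` (a finite set); a random `x : D → Bool` (extended by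
`false`) fails `Z n` with probability at most `p n` (the coordinates of `X n` are independent fair bits,
as `e n` is injective), and `∑ p n < 1`.  By compactness the intersection of all `C n` is not empty
(`IsCompact.nonempty_iInter_of_sequence_nonempty_isCompact_isClosed`). -/
def GlbStmt : Prop := ∀ (ι : Type) (X : ℕ → Type) [∀ n, Finite (X n)] (e : ∀ n, X n → ι)
  (Z : ∀ n, (X n → Bool) → Prop) (p : ℕ → ℝ), (∀ n, Function.Injective (e n)) →
  (∀ n, 0 ≤ p n) → Summable p → ∑' n, p n < 1 → (∀ n, pr (fun y : X n → Bool => ¬ Z n y) ≤ p n) →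
  ∃ x : ι → Bool, ∀ n, Z n fun a => x (e n a)

/-- `P` from the bits: the graphs of order `1` and the graphs `F` with `x (cl F)` -/
def ofBits (x : Cl → Bool) : GProp where
  mem V _ G := Nat.card V = 1 ∨ x (cl G) = true
  iso V W _ _ G H h := by
    have h1 : Nat.card V = Nat.card W := by
      obtain ⟨e⟩ := h
      exact Nat.card_congr e.toEquiv
    have h2 : cl G = cl H := by
      obtain ⟨e⟩ := h
      unfold cl
      have key : ∀ (m m' : ℕ) (hm : m = m') (A : SimpleGraph (Fin m)) (B : SimpleGraph (Fin m')),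
          Nonempty (A ≃g B) → (⟨m, Quotient.mk (isoS m) A⟩ : Cl) = ⟨m', Quotient.mk (isoS m') B⟩ := by
        intro m m' hm A B hAB
        subst hm
        congr 1
        exact Quotient.sound hAB
      refine key _ _ h1 _ _ ?_
      exact ⟨((SimpleGraph.Iso.map (Finite.equivFin V) G).symm.trans e).trans
        (SimpleGraph.Iso.map (Finite.equivFin W) H)⟩
    rw [h1, h2]

/-- TRN: mates are mates.

Proof.  `hP (ofBits x) G i = hh (cn G) (restriction of x) univ i` by definition (for a block `B` the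
induced graph has `B.card` vertices).  `hP (ofBits x) G n = 1` (all blocks are singletons) and
`hP G i = 0` for `i > n`.  If `hpol G = hpol H`, `H` of order `m`, then, as the falling factorials
`descPochhammer ℤ i` have degree `i` and leading coefficient `1`, the coefficients agree: compare the
degrees (`n = m`), then `hP G i = hP H i` for all `i ≤ n` (descending induction on `i`, linear
independence).  So `¬ Unq P G` implies `Mate x G`. -/
def TrnStmt : Prop := ∀ (x : Cl → Bool) (n : ℕ) (G : SimpleGraph (Fin n)),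
  ¬ Unq (ofBits x) G → Mate (fun a : Cn n => x a.1) G

/-- FIN: the main theorem.

Proof.  AVG: `c`, `n0`.  GLB with `ι = Cl`, `X n = Cn n`, `e n = Subtype.val`, `p n = (1/2)^(n+2)`
(sum `1/2`), and `Z n y` the complement of the event of AVG for `n ≥ n0`, `True` for `n < n0`: there is
`x : Cl → Bool` such that for all `n ≥ n0` at most `exp (-c n) * Nat.card (SimpleGraph (Fin n))` graphs have a
mate.  `P = ofBits x`, TRN.  The proportion of the graphs with `Unq` is at least `1 - exp (-c n)`.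
`P` is not trivial: `P` contains the graph of order `1`, and if it contained all graphs then
`hP G i` would not depend on the graph `G` of order `n`, so no graph of order `n ≥ 2` would be `Unq`
(two graphs of order `n` which are not isomorphic: the empty and the complete graph). -/
def FinStmt : Prop := MainStmt

end

end Pool.Agent.HAR
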